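import Pool.Agent.Helper96.Fc.Nice
import Pool.Agent.Helper96.Split6

/-!
# Preparations for the two blocks on quadruples
-/

open Cardinal Ordinal Set

namespace Pool.Agent.Helper96.Fc.Q2c

theorem kap_le_muω (n : ℕ) : kap n ≤ muω :=
  ((kap_lt_lam n 0).trans (lam_lt_mu 0 0)).le.trans (mu_le_muω 0)

/-- the point of an index -/
noncomputable def toPt (n : ℕ) (y : (kap n).ord.ToType) : Pt :=
  ToType.mk ⟨(ToType.toOrd y).1, show (ToType.toOrd y).1 < muω.ord from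
    lt_of_lt_of_le (show (ToType.toOrd y).1 < (kap n).ord from (ToType.toOrd y).2)
      (ord_le_ord.2 (kap_le_muω n))⟩

theorem toPt_inj (n : ℕ) : Function.Injective (toPt n) := by
  intro y z h
  have h6 := congrArg Subtype.val (ToType.mk.injective h)
  exact ToType.mk.symm.injective (Subtype.ext h6)

theorem od_toPt_lt {n : ℕ} (y : (kap n).ord.ToType) : od (toPt n y) < (kap n).ord := by
  unfold toPt
  rw [od_mk]
  exact (ToType.toOrd y).2

theorem _root_.Pool.Agent.Helper96.Fc.Fd.mono {q r : Pos} {i : Lv} {x y δ : Pt}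
    (h : Fd q i x y δ) (hr : r ≤ q) : Fd r i x y δ := by
  obtain ⟨b, hb⟩ := h
  exact ⟨b, hb.mono hr⟩

theorem _root_.Pool.Agent.Helper96.Fc.Fd.symm {q : Pos} {i : Lv} {x y δ : Pt}
    (h : Fd q i x y δ) : Fd q i y x δ := by
  obtain ⟨b, hb⟩ := h
  exact ⟨_, hb.symm⟩

theorem _root_.Pool.Agent.Helper96.Fc.Fd.unique {q : Pos} {i : Lv} {x y δ δ' : Pt}
    (h : Fd q i x y δ) (h' : Fd q i x y δ') : δ = δ' := by
  obtain ⟨b, hb⟩ := h
  obtain ⟨b', hb'⟩ := h'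
  exact (hb.unique hb').1

theorem _root_.Pool.Agent.Helper96.Fc.Fd.lt {q : Pos} {i : Lv} {x y δ : Pt}
    (h : Fd q i x y δ) : od δ < (rho i).ord := by
  obtain ⟨b, hb⟩ := h
  exact hb.2.1.lt

theorem Cpt.refl (p : Pos) : Cpt p.1 p.1 := fun c b b' h1 h2 => p.2.func c b b' h1 h2

/-- a finite union of pairwise compatible conditions -/
theorem exists_union {ι : Type} [Finite ι] (r : ι → Pos) (h : ∀ j k, Cpt (r j).1 (r k).1) :
    ∃ q : Pos, (∀ j, q ≤ r j) ∧ ∀ t ∈ q.1, ∃ j, t ∈ (r j).1 := by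
  have hc : IsCond (⋃ j, (r j).1) := by
    refine ⟨?_, ?_, ?_⟩
    · intro c b b' h1 h2
      obtain ⟨j, hj⟩ := mem_iUnion.1 h1
      obtain ⟨k, hk⟩ := mem_iUnion.1 h2
      exact h j k c b b' hj hk
    · intro c b h1
      obtain ⟨j, hj⟩ := mem_iUnion.1 h1
      exact (r j).2.dom c b hj
    · intro i
      have h1 : {t : Cell × Bool | t ∈ ⋃ j, (r j).1 ∧ t.1.1 = i} =
          ⋃ j, {t : Cell × Bool | t ∈ (r j).1 ∧ t.1.1 = i} := by
        ext t
        simp only [mem_ofPred_eq, mem_iUnion, exists_and_right]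
      rw [h1, card_iUnion_lt_iff_forall_of_isRegular (rho_reg i)
        ((lt_aleph0_of_finite ι).trans_le (rho_reg i).aleph0_le)]
      exact fun j => (r j).2.size i
  refine ⟨⟨_, hc⟩, fun j => subset_iUnion (fun j => (r j).1) j, ?_⟩
  intro t ht
  exact mem_iUnion.1 ht

/-- deciding a set of cells -/
theorem exists_decide (r : Pos) (W : Set Cell)
    (hdom : ∀ c ∈ W, od c.2.1 < (sig c.1).ord ∧ od c.2.2 < (rho c.1).ord)
    (hsize : ∀ i, #{c : Cell | c ∈ W ∧ c.1 = i} < rho i) :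
    ∃ r' ≤ r, ∀ c ∈ W, ∃ b, (c, b) ∈ r'.1 := by
  classical
  let E : Set (Cell × Bool) := {t | t.1 ∈ W ∧ t.2 = false ∧ ∀ b, (t.1, b) ∉ r.1}
  have hE : IsCond E := by
    refine ⟨?_, ?_, ?_⟩
    · rintro c b b' ⟨-, h1, -⟩ ⟨-, h2, -⟩
      exact h1.trans h2.symm
    · rintro c b ⟨h1, -, -⟩
      exact hdom c h1
    · intro i
      refine lt_of_le_of_lt ?_ (hsize i)
      refine mk_le_of_injective (f := fun t : {t : Cell × Bool | t ∈ E ∧ t.1.1 = i} =>
        (⟨t.1.1, t.2.1.1, t.2.2⟩ : {c : Cell | c ∈ W ∧ c.1 = i})) ?_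
      rintro ⟨⟨c, b⟩, ⟨h1, h2, h3⟩, h4⟩ ⟨⟨c', b'⟩, ⟨h1', h2', h3'⟩, h4'⟩ h
      simp only [Subtype.mk.injEq] at h h2 h2' ⊢
      rw [h, h2, h2']
  have hcpt : Cpt r.1 E := by
    rintro c b b' h1 ⟨-, -, h2⟩
    exact (h2 b h1).elim
  refine ⟨⟨r.1 ∪ E, r.2.union hE hcpt⟩, subset_union_left, ?_⟩
  intro c hc
  by_cases h : ∃ b, (c, b) ∈ r.1
  · obtain ⟨b, hb⟩ := h
    exact ⟨b, Or.inl hb⟩
  · push Not at h
    exact ⟨false, Or.inr ⟨hc, rfl, h⟩⟩

/-- the order of the points transported to the branches -/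
theorem exists_order (S : Set Pt) (F : Pt → (Pt → Bool)) (hF : Set.InjOn F S) :
    ∃ R : (Pt → Bool) → (Pt → Bool) → Prop, IsWellOrder (Pt → Bool) R ∧
      ∀ x ∈ S, ∀ y ∈ S, R (F x) (F y) ↔ x < y := by
  classical
  let g : (Pt → Bool) → Pt ⊕ (Pt → Bool) := fun h =>
    if hx : ∃ x, x ∈ S ∧ F x = h then Sum.inl hx.choose else Sum.inr h
  have hg1 : ∀ x ∈ S, g (F x) = Sum.inl x := by
    intro x hx
    have hex : ∃ x', x' ∈ S ∧ F x' = F x := ⟨x, hx, rfl⟩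
    have h1 : g (F x) = Sum.inl hex.choose := dif_pos hex
    rw [h1, hF hex.choose_spec.1 hx hex.choose_spec.2]
  have hinj : Function.Injective g := by
    intro h h' hh
    by_cases hx : ∃ x, x ∈ S ∧ F x = h
    · obtain ⟨x, hxS, rfl⟩ := hx
      rw [hg1 x hxS] at hh
      by_cases hx' : ∃ x, x ∈ S ∧ F x = h'
      · obtain ⟨x', hxS', rfl⟩ := hx'
        rw [hg1 x' hxS'] at hh
        rw [Sum.inl.inj hh]
      · have h1 : g h' = Sum.inr h' := dif_neg hx'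
        rw [h1] at hh
        cases hh
    · have h0 : g h = Sum.inr h := dif_neg hx
      rw [h0] at hh
      by_cases hx' : ∃ x, x ∈ S ∧ F x = h'
      · obtain ⟨x', hxS', rfl⟩ := hx'
        rw [hg1 x' hxS'] at hh
        cases hh
      · have h1 : g h' = Sum.inr h' := dif_neg hx'
        rw [h1] at hh
        exact Sum.inr.inj hh
  let s : Pt ⊕ (Pt → Bool) → Pt ⊕ (Pt → Bool) → Prop := Sum.Lex (· < ·) WellOrderingRel
  have hs : IsWellOrder (Pt ⊕ (Pt → Bool)) s := inferInstance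
  refine ⟨g ⁻¹'o s, (RelEmbedding.preimage ⟨g, hinj⟩ s).isWellOrder, ?_⟩
  intro x hx y hy
  change s (g (F x)) (g (F y)) ↔ x < y
  rw [hg1 x hx, hg1 y hy]
  exact Sum.lex_inl_inl

end Pool.Agent.Helper96.Fc.Q2c
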