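import Pool.Agent.Helper27.Fc96.StepB

/-!
# Amalgamating four points
-/

open Cardinal Ordinal Set

namespace Pool.Agent.Helper96.Fc.Q2c

open Pool.Agent.Helper96.Split

theorem mk_shapes_lt (M : ℕ) :
    #{R : Set (Pt × Bool) // R ⊆ {z | od z.1 < (kap M).ord} ∧ #R < kap M} < kap (M + 1) := by
  refine (cls_kap M).small_subsets ?_
  have h1 : ({z : Pt × Bool | od z.1 < (kap M).ord} : Set (Pt × Bool)) =
      {x : Pt | od x < (kap M).ord} ×ˢ (Set.univ : Set Bool) := by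
    ext z
    simp
  rw [h1, mk_setProd]
  refine mul_lt_of_lt (aleph0_le_kap _) ?_ ?_
  · have h2 : #{x : Pt | od x < (kap M).ord} = kap M := mk_od_lt (kap_le_muω M)
    rw [h2]
    exact kap_lt_succ M
  · exact (lt_aleph0_of_finite _).trans_le (aleph0_le_kap _)

theorem four (Φ : Pos → Pt → Pt → Prop)
    (hmono : ∀ r r' x ξ, Φ r x ξ → r' ≤ r → Φ r' x ξ) (p : Pos)
    (hI : ∀ q ≤ p, ∀ a b c d ξa ξb ξc ξd, Φ q a ξa → Φ q b ξb → Φ q c ξc → Φ q d ξd →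
      ¬ Col4 q a b c d) {M : ℕ} {S : Set Pt} {q₂ : Pos} {m : ℕ} {D D₁ : Set Pt} {y : Pt → Pt}
    {r : Pt → Pos} (h : Comb Φ M S q₂ m D D₁ y r) (hq₂ : q₂ ≤ p) {D₂ : Set Pt} (hD₂ : D₂ ⊆ D₁)
    (hcard : kap (M + 1) ≤ #D₂) (hlev : ∀ d ∈ D₂, ∃ m' ≤ M, At m' d) : False := by
  classical
  have hemb : #((cutK M).θ.ord.ToType) ≤ #D₂ := by
    have h1 : #((cutK M).θ.ord.ToType) = kap (M + 1) := mk_ord_toType _
    rw [h1]
    exact hcard
  obtain ⟨g⟩ := hemb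
  have hgD : ∀ η, (g η).1 ∈ D := fun η => h.sub (hD₂ (g η).2)
  choose lv hlvM hlvA using fun η => hlev (g η).1 (g η).2
  have hJ : ∀ η, (Sum.inl (lv η) : Lv) ∈ (cutK M).J := fun η => ⟨lv η, hlvM η, rfl⟩
  have hshape : ∀ η, {z : Pt × Bool | Bit (r (g η).1) (.inl (lv η)) (g η).1 z.1 z.2} ⊆
      {z | od z.1 < (kap M).ord} ∧
      #{z : Pt × Bool | Bit (r (g η).1) (.inl (lv η)) (g η).1 z.1 z.2} < kap M := by
    intro η
    refine ⟨?_, ?_⟩
    · intro z hz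
      have h1 : Bit (r (g η).1) (.inl (lv η)) (g η).1 z.1 z.2 := hz
      exact h1.lt.trans_le (ord_le_ord.2 (kap_strictMono.monotone (hlvM η)))
    · refine lt_of_le_of_lt ?_ ((cutK M).low _ (r (g η).1).2)
      refine mk_le_of_injective (f := fun z : {z : Pt × Bool | Bit (r (g η).1) (.inl (lv η))
        (g η).1 z.1 z.2} => (⟨((Sum.inl (lv η), (g η).1, z.1.1), z.1.2), z.2, hJ η⟩ :
          lo (cutK M).J (r (g η).1).1)) ?_
      intro z z' hzz
      have h1 := congrArg Subtype.val hzz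
      have h2 := congrArg (fun t : Cell × Bool => t.1.2.2) h1
      have h3 := congrArg (fun t : Cell × Bool => t.2) h1
      exact Subtype.ext (Prod.ext h2 h3)
  let C : Type := ℕ × {R : Set (Pt × Bool) // R ⊆ {z | od z.1 < (kap M).ord} ∧ #R < kap M}
  have hC : #C < (cutK M).θ := by
    change #(ℕ × {R : Set (Pt × Bool) // R ⊆ {z | od z.1 < (kap M).ord} ∧ #R < kap M}) <
      kap (M + 1)
    rw [mk_prod, Cardinal.lift_id, Cardinal.lift_id, mk_nat]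
    exact mul_lt_of_lt (aleph0_le_kap _) ((aleph0_le_kap M).trans_lt (kap_lt_succ M))
      (mk_shapes_lt M)
  obtain ⟨e, he, ⟨v, hv⟩, hcp⟩ := amalg (cutK M) (fun η => r (g η).1) (fun η => (g η).1)
    (fun η ζ hηζ => g.injective (Subtype.ext hηζ)) hC
    (fun η => (lv η, ⟨_, hshape η⟩))
  have hlv : ∀ k, lv (e k) = v.1 := fun k => congrArg Prod.fst (hv k)
  have hsh : ∀ k, {z : Pt × Bool | Bit (r (g (e k)).1) (.inl v.1) (g (e k)).1 z.1 z.2} = v.2.1 := by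
    intro k
    have h1 := congrArg (fun z : C => z.2.1) (hv k)
    simp only [hlv] at h1
    exact h1
  have hinf : (Set.range fun k => (g (e k)).1).Infinite := by
    have : Infinite (cutK M).θ.ord.ToType := by
      rw [infinite_iff]
      have h1 : #((cutK M).θ.ord.ToType) = kap (M + 1) := mk_ord_toType _
      rw [h1]
      exact aleph0_le_kap _
    refine Set.infinite_range_of_injective ?_
    intro j k hjk
    exact he.injective (g.injective (Subtype.ext hjk))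
  obtain ⟨F, hF, hF4⟩ := hinf.exists_subset_card_eq 4
  let d : Fin 4 ↪o Pt := F.orderEmbOfFin hF4
  have hd : ∀ i, ∃ k, (g (e k)).1 = d i := fun i => hF (F.orderEmbOfFin_mem hF4 i)
  choose k hk using hd
  have hkne : ∀ i j, i ≠ j → k i ≠ k j := by
    intro i j hij hkk
    apply hij
    apply d.injective
    rw [← hk i, ← hk j, hkk]
  have hdD : ∀ i, d i ∈ D := fun i => hk i ▸ hgD _
  have hdA : ∀ i, At v.1 (d i) := by
    intro i
    have h1 := hlvA (e (k i))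
    rw [hlv, hk] at h1
    exact h1
  have hvM : v.1 ≤ M := by
    have h1 := hlvM (e (k 0))
    rwa [hlv] at h1
  have hvJ : (Sum.inl v.1 : Lv) ∈ (cutK M).J := ⟨v.1, hvM, rfl⟩
  have hsh' : ∀ i, {z : Pt × Bool | Bit (r (d i)) (.inl v.1) (d i) z.1 z.2} = v.2.1 := by
    intro i
    have h1 := hsh (k i)
    rw [hk] at h1
    exact h1
  have htch : ∀ i j, i ≠ j → ¬ Tch (r (d i)) (.inl v.1) (d j) := by
    intro i j hij
    have h1 := (hcp (k i) (k j) (hkne i j hij)).2 _ hvJ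
    simp only [hk] at h1
    exact h1
  obtain ⟨q, hq, hq'⟩ := exists_union (fun i => r (d i)) (fun i j => h.cpt _ (hdD i) _ (hdD j))
  have hlt : ∀ i j, i < j → d i < d j := fun i j hij => d.strictMono hij
  have hown : ∀ i ε b, Bit q (.inl v.1) (d i) ε b → Bit (r (d i)) (.inl v.1) (d i) ε b := by
    intro i ε b hb
    obtain ⟨j, hj⟩ := hq' _ hb
    by_cases hij : j = i
    · subst hij
      exact hj
    · exact (htch j i hij ⟨ε, b, hj⟩).elim
  have hsame : ∀ x ∈ Set.range d, ∀ x' ∈ Set.range d, ∀ ε b, Bit q (.inl v.1) x ε b →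
      Bit q (.inl v.1) x' ε b := by
    rintro _ ⟨i, rfl⟩ _ ⟨j, rfl⟩ ε b hb
    have h1 := hown i ε b hb
    have h2 : (ε, b) ∈ {z : Pt × Bool | Bit (r (d i)) (.inl v.1) (d i) z.1 z.2} := h1
    rw [hsh' i, ← hsh' j] at h2
    exact Bit.mono (q := r (d j)) h2 (hq j)
  obtain ⟨q', hq'q, δ, -, -, hagr, hbit, -⟩ := ext_same q (.inl v.1) (Set.range d)
    (Set.finite_range d) (by rintro _ ⟨i, rfl⟩; exact (hdA i).1) hsame ∅
    (by rw [mk_eq_zero]; exact rho_pos _) (fun x => decide (x = d 1))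
  have hqr : ∀ i, q' ≤ r (d i) := fun i => hq'q.trans (hq i)
  have hqq₂ : q' ≤ q₂ := (hqr 0).trans (h.le _ (hdD 0))
  have hin : ∀ i, ∃ ξ, Φ q' (y (d i)) ξ := by
    intro i
    obtain ⟨ξ, hξ⟩ := h.inn _ (hdD i)
    exact ⟨ξ, hmono _ _ _ _ hξ (hqr i)⟩
  have hb0 : Bit q' (.inl v.1) (d 0) δ false := by
    have h1 := hbit (d 0) ⟨0, rfl⟩
    rwa [decide_eq_false (hlt 0 1 (by decide)).ne] at h1
  have hb1 : Bit q' (.inl v.1) (d 1) δ true := by
    have h1 := hbit (d 1) ⟨1, rfl⟩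
    rwa [decide_eq_true rfl] at h1
  have hb2 : Bit q' (.inl v.1) (d 2) δ false := by
    have h1 := hbit (d 2) ⟨2, rfl⟩
    rwa [decide_eq_false (hlt 1 2 (by decide)).ne'] at h1
  have hTA : TA q' (d 0) (d 1) (d 2) :=
    ⟨hlt 0 1 (by decide), hlt 1 2 (by decide), v.1, hdA 0, hdA 1, hdA 2, δ, false,
      ⟨hagr _ ⟨0, rfl⟩ _ ⟨1, rfl⟩, hb0, hb1⟩, ⟨hagr _ ⟨2, rfl⟩ _ ⟨1, rfl⟩, hb2, hb1⟩⟩
  obtain ⟨ξ0, h0⟩ := hin 0
  obtain ⟨ξ1, h1⟩ := hin 1
  obtain ⟨ξ2, h2⟩ := hin 2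
  obtain ⟨ξ3, h3⟩ := hin 3
  have hfd : ∀ i j, i < j → Fd q' (.inr m) (y (d i)) (y (d j)) (d i) := fun i j hij =>
    (h.fd _ (hdD i) _ (hdD j) (hlt i j hij)).mono hqq₂
  have hy : ∀ i j, i < j → y (d i) < y (d j) := fun i j hij =>
    h.mono _ (hdD i) _ (hdD j) (hlt i j hij)
  refine hI q' (hqq₂.trans hq₂) _ _ _ _ _ _ _ _ h0 h1 h2 h3 (Or.inl ⟨m, h.lev _ (hdD 0),
    h.lev _ (hdD 1), h.lev _ (hdD 2), h.lev _ (hdD 3), hy 0 1 (by decide), hy 0 2 (by decide),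
    hy 0 3 (by decide), hy 1 2 (by decide), hy 1 3 (by decide), d 0, d 1, d 2,
    hfd 0 1 (by decide), hfd 0 2 (by decide), hfd 0 3 (by decide), hfd 1 2 (by decide),
    hfd 1 3 (by decide), hfd 2 3 (by decide), hTA⟩)

end Pool.Agent.Helper96.Fc.Q2c
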