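import Pool.Agent.Helper27.Fc96.StepB

/-!
# Block NO5: there is no quintuple all of whose quadruples have colour 1
-/

open Cardinal Ordinal Set

namespace Pool.Agent.Helper96.Fc

namespace Q2c

open Pool.Agent.Helper96.Split

theorem TA.mono {q r : Pos} {x y z : Pt} (h : TA q x y z) (hr : r ≤ q) : TA r x y z := by
  obtain ⟨h1, h2, m, h3, h4, h5, δ, b, h6, h7⟩ := h
  exact ⟨h1, h2, m, h3, h4, h5, δ, b, h6.mono hr, h7.mono hr⟩

theorem TB.mono {q r : Pos} {n : ℕ} {x y : Pt} (h : TB q n x y) (hr : r ≤ q) : TB r n x y := by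
  obtain ⟨h1, m, h2, h3, h4, δ, b, ν, h5, h6, h7⟩ := h
  exact ⟨h1, m, h2, h3, h4, δ, b, ν, h5.mono hr, h6, h7.mono hr⟩

theorem Col4.mono {q r : Pos} {a b c d : Pt} (h : Col4 q a b c d) (hr : r ≤ q) :
    Col4 r a b c d := by
  rcases h with h | h | h
  · obtain ⟨m, h1, h2, h3, h4, h5, h6, h7, h8, h9, t₀, t₁, t₂, g1, g2, g3, g4, g5, g6, g7⟩ := h
    exact Or.inl ⟨m, h1, h2, h3, h4, h5, h6, h7, h8, h9, t₀, t₁, t₂, g1.mono hr, g2.mono hr,
      g3.mono hr, g4.mono hr, g5.mono hr, g6.mono hr, TA.mono g7 hr⟩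
  · obtain ⟨m, h1, h2, h3, h4, h5, h6, h7, t, g1, g2, g3⟩ := h
    refine Or.inr (Or.inl ⟨m, h1, h2, h3, h4, h5, h6, h7, t, g1.mono hr, ?_, ?_⟩)
    · intro u hu
      obtain ⟨β, h8, h9⟩ := g2 u hu
      exact ⟨β, h8.mono hr, h9.mono hr⟩
    · intro u hu
      obtain ⟨β, h8, h9⟩ := g3 u hu
      exact ⟨β, h8.mono hr, h9.mono hr⟩
  · obtain ⟨m, n, h0, h1, h2, h3, h4, h5, h6, t₀, t₁, g1, g2, g3, g4⟩ := h
    exact Or.inr (Or.inr ⟨m, n, h0, h1, h2, h3, h4, h5, h6, t₀, t₁, g1.mono hr, g2.mono hr,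
      g3.mono hr, TB.mono g4 hr⟩)

theorem ta_quad {q : Pos} {a b c d : Pt} (h1 : TA q a b c) (h3 : TA q a c d)
    (h4 : TA q b c d) : False := by
  obtain ⟨-, -, m, hm, -, -, δ₁, β₁, s1, s2⟩ := h1
  obtain ⟨-, -, m₂, hm₂, hc₂, -, δ₂, β₂, s3, s4⟩ := h3
  obtain ⟨-, -, m₃, -, hc₃, -, δ₃, β₃, s5, s6⟩ := h4
  have e2 := hm₂.unique hm
  subst e2
  have e3 := hc₃.unique hc₂
  subst e3
  have e4 := (s2.symm.unique s5).1
  have e5 := (s4.unique s6).1
  subst e5
  subst e4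
  have e6 := s1.2.1.unique s3.2.1
  have e7 := s2.2.1.unique s3.2.2
  rw [e6] at e7
  cases β₂ <;> simp at e7

theorem ta_trip {q : Pos} {n : ℕ} {a b c : Pt} (h1 : TA q a b c) (h2 : TB q n a b)
    (h4 : TB q n b c) : False := by
  obtain ⟨-, -, m, hm, hb, -, δ₁, β₁, s1, s2⟩ := h1
  obtain ⟨-, m₂, -, hm₂, -, δ₂, β₂, ν₂, s3, hν₂, t2⟩ := h2
  obtain ⟨-, m₃, -, hm₃, -, δ₃, β₃, ν₃, s4, hν₃, t3⟩ := h4
  have e2 := hm₂.unique hm
  subst e2
  have e3 := hm₃.unique hb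
  subst e3
  obtain ⟨e4, e5⟩ := s1.unique s3
  obtain ⟨e6, e7⟩ := s2.symm.unique s4
  have e8 : ν₂ = ν₃ := od_inj (hν₂.trans hν₃.symm)
  subst e8 e4 e5 e6 e7
  have e9 := t2.unique t3
  cases β₁ <;> simp at e9

end Q2c

open Q2c Pool.Agent.Helper96.Split

/-- **There is no quintuple all of whose quadruples have colour 1.** -/
theorem no5 (q : Pos) (S : Finset Pt) (hS : S.card = 5)
    (h : ∀ s ⊆ S, s.card = 4 → ∃ a b c d, s = {a, b, c, d} ∧ Col4 q a b c d) : False := by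
  classical
  obtain ⟨q', hq', hfd⟩ : ∃ q' ≤ q, ∀ m, ∀ x ∈ S, ∀ y ∈ S, At2 m x → At2 m y → x ≠ y →
      ∃ δ, Fd q' (.inr m) x y δ := by
    let Y : Lv → Set Pt := fun i => match i with
      | .inl _ => ∅
      | .inr m => {x | x ∈ S ∧ At2 m x}
    obtain ⟨q₂, hq₂, h1, -⟩ := ext_all q Y (by
      rintro (m | m)
      · change #(∅ : Set Pt) < _
        rw [mk_eq_zero]
        exact rho_pos _
      · have hfin : {x | x ∈ S ∧ At2 m x}.Finite := S.finite_toSet.subset fun x hx => hx.1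
        exact (lt_aleph0_iff_set_finite.2 hfin).trans_le (rho_reg _).aleph0_le) (by
      rintro (m | m) x hx
      · exact hx.elim
      · exact hx.2.1)
    exact ⟨q₂, hq₂, fun m x hx y hy hxm hym hne => h1 (.inr m) x ⟨hx, hxm⟩ y ⟨hy, hym⟩ hne⟩
  choose lv hlv using fun x : Pt => exists_At2 x
  let br : Pt → Pt → Bool := fun x ε =>
    brn q' (.inr (lv x)) x ε || decide (od ε = (lam (lv x)).ord)
  have hbr : ∀ m x u, lv x = m → od u < (lam m).ord → br x u = brn q' (.inr m) x u := by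
    rintro m x u rfl hu
    simp only [br]
    rw [decide_eq_false hu.ne, Bool.or_false]
  have hFD : ∀ m x y δ, lv x = m → lv y = m → Fd q' (.inr m) x y δ → FD δ (br x) (br y) := by
    intro m x y δ hx hy hδ
    have hlt : od δ < (lam m).ord := hδ.lt
    have h1 := fd_brn hδ
    refine ⟨?_, ?_⟩
    · intro u hu
      have hu' : od u < (lam m).ord := (od_lt_od.2 hu).trans hlt
      rw [hbr m x u hx hu', hbr m y u hy hu']
      exact h1.1 u hu
    · rw [hbr m x δ hx hlt, hbr m y δ hy hlt]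
      exact h1.2
  have hagr : ∀ m x y t, lv x = m → lv y = m →
      (∀ u ≤ t, ∃ β, Bit q' (.inr m) x u β ∧ Bit q' (.inr m) y u β) →
      ∀ u ≤ t, br x u = br y u := by
    intro m x y t hx hy hxy u hu
    obtain ⟨β, h1, h2⟩ := hxy u hu
    rw [hbr m x u hx h1.lt, hbr m y u hy h1.lt, brn_eq h1, brn_eq h2]
  have hmark : ∀ x y, lv x < lv y → br x ≠ br y := by
    intro x y hxy he
    have hlt : (lam (lv y)).ord < muω.ord :=
      ord_lt_ord.2 ((lam_lt_mu (lv y) 0).trans_le (mu_le_muω 0))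
    obtain ⟨ε, hε⟩ := exists_od hlt
    have h1 : br y ε = true := by
      simp only [br]
      rw [decide_eq_true hε, Bool.or_true]
    have h2 : br x ε = false := by
      simp only [br]
      rw [Bool.or_eq_false_iff]
      constructor
      · refine decide_eq_false ?_
        intro hb
        have h3 : od ε < (lam (lv x)).ord := hb.lt
        rw [hε, ord_lt_ord] at h3
        exact absurd h3 (not_lt.2 (lam_strictMono hxy).le)
      · refine decide_eq_false ?_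
        rw [hε]
        intro h3
        exact (lam_strictMono hxy).ne (ord_injective h3).symm
    rw [he, h1] at h2
    cases h2
  have hinj : Set.InjOn br (S : Set Pt) := by
    intro x hx y hy hxy
    by_contra hne
    rcases lt_trichotomy (lv x) (lv y) with hlt | heq | hlt
    · exact hmark x y hlt hxy
    · obtain ⟨δ, hδ⟩ := hfd (lv y) x hx y hy (heq ▸ hlv x) (hlv y) hne
      exact (hFD (lv y) x y δ heq rfl hδ).ne hxy
    · exact hmark y x hlt hxy.symm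
  obtain ⟨R, hR, hRlt⟩ := exists_order (S : Set Pt) br hinj
  let φ : Pt → ℕ × (Pt → Bool) := fun x => (lv x, br x)
  have hφ : Set.InjOn φ (S : Set Pt) := fun x hx y hy hxy => hinj hx hy (congrArg Prod.snd hxy)
  refine no_quint (R := R) (M := TA q') (G := TB q')
    (fun a b c d _ _ _ h1 _ h3 h4 => ta_quad h1 h3 h4)
    (fun m a b c h1 h2 _ h4 => ta_trip h1 h2 h4) (S := S.image φ)
    ((Finset.card_image_of_injOn hφ).trans hS) ?_
  intro s hs hs4
  obtain ⟨s₀, hs₀, rfl⟩ := Finset.subset_image_iff.1 hs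
  have hs₀S : s₀ ⊆ S := hs₀
  have hcard : s₀.card = 4 := by
    rw [← hs4]
    exact (Finset.card_image_of_injOn (hφ.mono hs₀S)).symm
  obtain ⟨a, b, c, d, rfl, hcol⟩ := h s₀ hs₀S hcard
  have ha : a ∈ (S : Set Pt) := hs₀S (by simp)
  have hb : b ∈ (S : Set Pt) := hs₀S (by simp)
  have hc : c ∈ (S : Set Pt) := hs₀S (by simp)
  have hd : d ∈ (S : Set Pt) := hs₀S (by simp)
  have himg : ({a, b, c, d} : Finset Pt).image φ = {φ a, φ b, φ c, φ d} := by
    simp only [Finset.image_insert, Finset.image_singleton]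
  rw [himg]
  have hcol' := Col4.mono hcol hq'
  rcases hcol' with h | h | h
  · obtain ⟨m, h1, h2, h3, h4, h5, h6, h7, h8, h9, t₀, t₁, t₂, g1, g2, g3, g4, g5, g6, g7⟩ := h
    have e1 := (hlv a).unique h1
    have e2 := (hlv b).unique h2
    have e3 := (hlv c).unique h3
    have e4 := (hlv d).unique h4
    exact Or.inl ⟨φ a, φ b, φ c, φ d, rfl, e1.trans e2.symm, e1.trans e3.symm, e1.trans e4.symm,
      t₀, t₁, t₂, hFD m _ _ _ e1 e2 g1, hFD m _ _ _ e1 e3 g2, hFD m _ _ _ e1 e4 g3,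
      hFD m _ _ _ e2 e3 g4, hFD m _ _ _ e2 e4 g5, hFD m _ _ _ e3 e4 g6, g7,
      (hRlt a ha b hb).2 h5, (hRlt a ha c hc).2 h6, (hRlt a ha d hd).2 h7,
      (hRlt b hb c hc).2 h8, (hRlt b hb d hd).2 h9⟩
  · obtain ⟨m, h1, h2, h3, h4, h5, h6, h7, t, g1, g2, g3⟩ := h
    have e1 := (hlv a).unique h1
    have e2 := (hlv b).unique h2
    have e3 := (hlv c).unique h3
    have e4 := (hlv d).unique h4
    exact Or.inr (Or.inl ⟨φ a, φ b, φ c, φ d, rfl, e1.trans e2.symm, e1.trans e3.symm,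
      e1.trans e4.symm, t, hFD m _ _ _ e1 e3 g1, hagr m _ _ _ e1 e2 g2, hagr m _ _ _ e3 e4 g3,
      (hRlt a ha c hc).2 h5, (hRlt c hc b hb).2 h6, (hRlt b hb d hd).2 h7⟩)
  · obtain ⟨m, n, h0, h1, h2, h3, h4, h5, h6, t₀, t₁, g1, g2, g3, g4⟩ := h
    have e1 := (hlv a).unique h1
    have e2 := (hlv b).unique h2
    have e3 := (hlv c).unique h3
    have e4 := (hlv d).unique h4
    refine Or.inr (Or.inr ⟨φ a, φ b, φ c, φ d, rfl, e1.trans e2.symm, e1.trans e3.symm, ?_,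
      t₀, t₁, hFD m _ _ _ e1 e2 g1, hFD m _ _ _ e1 e3 g2, hFD m _ _ _ e2 e3 g3, ?_,
      (hRlt a ha b hb).2 h5, (hRlt a ha c hc).2 h6⟩)
    · change lv a < lv d
      rw [e1, e4]
      exact h0
    · change TB q' (lv d) t₀ t₁
      rw [e4]
      exact g4

end Pool.Agent.Helper96.Fc
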