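import Pool.Agent.Helper27.Fc96.Four

/-!
# Block Q2CORE: a large set of points contains a quadruple of colour 1
-/

open Cardinal Ordinal Set

namespace Pool.Agent.Helper96.Fc

namespace Q2c

open Pool.Agent.Helper96.Split

/-- adding one bit -/
theorem exists_add (q : Pos) (c : Cell) (b : Bool)
    (hdom : od c.2.1 < (sig c.1).ord ∧ od c.2.2 < (rho c.1).ord) (hnot : ∀ b, (c, b) ∉ q.1) :
    ∃ q' ≤ q, (c, b) ∈ q'.1 := by
  have hE : IsCond ({(c, b)} : Set (Cell × Bool)) := by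
    refine ⟨?_, ?_, ?_⟩
    · intro c' b₁ b₂ h1 h2
      rw [mem_singleton_iff, Prod.mk.injEq] at h1 h2
      rw [h1.2, h2.2]
    · intro c' b' h1
      rw [mem_singleton_iff, Prod.mk.injEq] at h1
      rw [h1.1]
      exact hdom
    · intro i
      refine lt_of_le_of_lt (mk_le_mk_of_subset (t := {(c, b)}) fun t ht => ht.1) ?_
      rw [mk_singleton]
      exact one_lt_aleph0.trans_le (rho_reg i).aleph0_le
  refine ⟨⟨q.1 ∪ {(c, b)}, q.2.union hE ?_⟩, subset_union_left, Or.inr rfl⟩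
  intro c' b₁ b₂ h1 h2
  rw [mem_singleton_iff, Prod.mk.injEq] at h2
  rw [h2.1] at h1
  exact (hnot b₁ h1).elim

theorem Comb.node {Φ : Pos → Pt → Pt → Prop} {M : ℕ} {S : Set Pt} {q₂ : Pos} {m : ℕ}
    {D D₁ : Set Pt} {y : Pt → Pt} {r : Pt → Pos} (h : Comb Φ M S q₂ m D D₁ y r) {d : Pt}
    (hd : d ∈ D₁) : ∃ m' ≤ m, At m' d := by
  obtain ⟨d', hd', hlt⟩ := h.next d hd
  have h1 : od d < (lam m).ord := (h.fd d (h.sub hd) d' hd' hlt).lt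
  obtain ⟨m', hm'⟩ := exists_At_of_lt (h1.trans_le (ord_le_ord.2 (lam_le_lamω m)))
  refine ⟨m', ?_, hm'⟩
  by_contra hc
  exact absurd h1 (not_lt.2 (hm'.2 m (not_le.1 hc)))

theorem case1 (Φ : Pos → Pt → Pt → Prop)
    (hmono : ∀ r r' x ξ, Φ r x ξ → r' ≤ r → Φ r' x ξ)
    (hfun : ∀ r x ξ ξ', Φ r x ξ → Φ r x ξ' → ξ = ξ')
    (p : Pos) (hp : ∀ ξ, od ξ < kapω.ord → ∀ q ≤ p, ∃ r ≤ q, ∃ x, Φ r x ξ)
    (hI : ∀ q ≤ p, ∀ a b c d ξa ξb ξc ξd, Φ q a ξa → Φ q b ξb → Φ q c ξc → Φ q d ξd →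
      ¬ Col4 q a b c d)
    (M : ℕ) (p' : Pos) (hp' : p' ≤ p)
    (hlow : ∀ q ≤ p', ∀ x ξ, Φ q x ξ → ∀ n, At2 n x → n ≤ M) : False := by
  obtain ⟨q₂, hq₂, m, D, D₁, y, r, h⟩ := stepA Φ hmono hfun p hp hI M ∅
    (by rw [mk_eq_zero]; exact (kap_reg _).pos) p' hp'
  refine four Φ hmono p hI h (hq₂.trans hp') Subset.rfl h.large ?_
  intro d hd
  obtain ⟨m', hm', hA⟩ := h.node hd
  obtain ⟨ξ, hξ⟩ := h.inn d (h.sub hd)
  have h1 := hlow (r d) ((h.le d (h.sub hd)).trans hq₂) _ _ hξ m (h.lev d (h.sub hd))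
  exact ⟨m', hm'.trans h1, hA⟩

/-- the last step: two nodes with the same information -/
theorem last (Φ : Pos → Pt → Pt → Prop)
    (hmono : ∀ r r' x ξ, Φ r x ξ → r' ≤ r → Φ r' x ξ)
    (p : Pos)
    (hI : ∀ q ≤ p, ∀ a b c d ξa ξb ξc ξd, Φ q a ξa → Φ q b ξb → Φ q c ξc → Φ q d ξd →
      ¬ Col4 q a b c d)
    (hC : ∀ M, ∀ p' ≤ p, ∃ q ≤ p', ∃ x ξ, Φ q x ξ ∧ ∃ n, At2 n x ∧ M < n)
    {q₀ : Pos} (hq₀ : q₀ ≤ p) {T : Set (ℕ × Pos)}
    (hT1 : ∀ t ∈ T, (∀ e ∈ t.2.1, e.1.1 ∈ (cutK 0).J) ∧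
        ∃ s ≤ q₀, (∃ a ξ, At2 t.1 a ∧ Φ s a ξ) ∧ s.1 = t.2.1 ∪ q₀.1)
    (hT2 : ∀ n, ∀ r ≤ q₀, (∃ a ξ, At2 n a ∧ Φ r a ξ) → ∃ l, (n, l) ∈ T ∧ Cpt l.1 r.1)
    {S : Set Pt} (hS : ∀ t ∈ T, ∀ s, Tch t.2 (.inl 0) s → s ∈ S)
    {q : Pos} (hq : q ≤ q₀) {x y z : Pt} {ξx ξy ξz : Pt} (hx : Φ q x ξx) (hy : Φ q y ξy)
    (hz : Φ q z ξz) {m : ℕ} (hxm : At2 m x) (hym : At2 m y) (hzm : At2 m z) (hxy : x < y)
    (hxz : x < z) {d e : Pt} (hde : d < e) (hfxy : Fd q (.inr m) x y d)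
    (hfxz : Fd q (.inr m) x z d) (hfyz : Fd q (.inr m) y z e) {m' : ℕ} (hd : At m' d)
    (he : At m' e)
    (hdec : ∀ s ∈ S, od s < (kap m').ord → ∃ b, Bit q (.inl m') d s b ∧ Bit q (.inl m') e s b) :
    False := by
  classical
  obtain ⟨q', hq', h1, -⟩ := ext_all q (fun i => if i = Sum.inl m' then {d, e} else ∅) (by
    intro i
    by_cases hi : i = Sum.inl m'
    · simp only [if_pos hi]
      exact (lt_aleph0_of_finite _).trans_le (rho_reg i).aleph0_le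
    · simp only [if_neg hi]
      rw [mk_eq_zero]
      exact rho_pos _) (by
    intro i x hx
    by_cases hi : i = Sum.inl m'
    · simp only [if_pos hi] at hx
      subst hi
      rcases hx with rfl | hx
      · exact hd.1
      · rw [mem_singleton_iff] at hx
        subst hx
        exact he.1
    · simp only [if_neg hi] at hx
      exact hx.elim)
  obtain ⟨δ, β, hspl⟩ := h1 (Sum.inl m') d (by simp) e (by simp) hde.ne
  have hδlt : od δ < (kap m').ord := hspl.2.1.lt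
  have hδS : δ ∉ S := by
    intro hδ
    obtain ⟨b, hb1, hb2⟩ := hdec δ hδ hδlt
    have e1 := (hb1.mono hq').unique hspl.2.1
    have e2 := (hb2.mono hq').unique hspl.2.2
    rw [e1] at e2
    cases β <;> simp at e2
  -- a level above everything decided
  obtain ⟨δ', hδ', hδ'2⟩ := exists_pt_gt (.inl 0) (eps q' (.inl 0)) (mk_eps q' (.inl 0))
  have hω : (rho (.inl 0)).ord = ω := ord_aleph0
  rw [hω] at hδ'
  obtain ⟨N, hN⟩ := lt_omega0.1 hδ'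
  obtain ⟨q'', hq'', a, ξa, ha, n, hn, hNn⟩ := hC (max N (max m m')) q' (hq'.trans (hq.trans hq₀))
  obtain ⟨l, hl, hl2⟩ := hT2 n q'' (hq''.trans (hq'.trans hq)) ⟨a, ξa, hn, ha⟩
  obtain ⟨-, s, hs, ⟨w, ξw, hw, hw2⟩, hs2⟩ := hT1 (n, l) hl
  have hlq' : Cpt l.1 q'.1 := hl2.mono Subset.rfl hq''
  let q₃ : Pos := ⟨l.1 ∪ q'.1, l.2.union q'.2 hlq'⟩
  have hq₃ : q₃ ≤ q' := subset_union_right
  have hq₃s : q₃ ≤ s := by
    intro t ht
    rw [hs2] at ht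
    rcases ht with ht | ht
    · exact Or.inl ht
    · exact Or.inr ((hq'.trans hq) ht)
  have hnμ : (n : Ordinal.{0}) < muω.ord := by
    have h2 : (n : Ordinal.{0}) < (kap 0).ord := by
      change (n : Ordinal.{0}) < (ℵ₀).ord
      rw [ord_aleph0]
      exact natCast_lt_omega0 n
    exact h2.trans_le (ord_le_ord.2 (kap_le_muω 0))
  obtain ⟨ν, hν⟩ := exists_od hnμ
  obtain ⟨q₄, hq₄, hbit⟩ := exists_add q₃ (Sum.inl 0, δ, ν) β (by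
    constructor
    · change od δ < (lam 0).ord
      exact hδlt.trans (ord_lt_ord.2 (kap_lt_lam _ _))
    · change od ν < (rho (.inl 0)).ord
      rw [hω, hν]
      exact natCast_lt_omega0 n) (by
    rintro b (hb | hb)
    · exact hδS (hS _ hl δ ⟨ν, b, hb⟩)
    · have hb' : Bit q' (.inl 0) δ ν b := hb
      have h2 := hδ'2 ν ⟨δ, b, hb'⟩ hb'.lt
      rw [← od_lt_od, hν, hN] at h2
      have h3 : n < N := by exact_mod_cast h2
      have h4 : N < n := (le_max_left _ _).trans_lt hNn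
      exact lt_asymm h3 h4)
  have hq₄' : q₄ ≤ q' := hq₄.trans hq₃
  have hq₄q : q₄ ≤ q := hq₄'.trans hq'
  have hmn : m < n := ((le_max_left m m').trans (le_max_right _ _)).trans_lt hNn
  have hm'n : m' < n := ((le_max_right m m').trans (le_max_right _ _)).trans_lt hNn
  refine hI q₄ (hq₄q.trans (hq.trans hq₀)) x y z w ξx ξy ξz ξw (hmono _ _ _ _ hx hq₄q)
    (hmono _ _ _ _ hy hq₄q) (hmono _ _ _ _ hz hq₄q)
    (hmono _ _ _ _ hw2 (hq₄.trans hq₃s)) (Or.inr (Or.inr ⟨m, n, hmn, hxm, hym, hzm, hw, hxy, hxz,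
      d, e, hfxy.mono hq₄q, hfxz.mono hq₄q, hfyz.mono hq₄q, hde, m', hm'n, hd, he, δ, β, ν,
      hspl.mono hq₄', hν, hbit⟩))

theorem case2 (Φ : Pos → Pt → Pt → Prop)
    (hmono : ∀ r r' x ξ, Φ r x ξ → r' ≤ r → Φ r' x ξ)
    (hfun : ∀ r x ξ ξ', Φ r x ξ → Φ r x ξ' → ξ = ξ')
    (p : Pos) (hp : ∀ ξ, od ξ < kapω.ord → ∀ q ≤ p, ∃ r ≤ q, ∃ x, Φ r x ξ)
    (hI : ∀ q ≤ p, ∀ a b c d ξa ξb ξc ξd, Φ q a ξa → Φ q b ξb → Φ q c ξc → Φ q d ξd →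
      ¬ Col4 q a b c d)
    (hC : ∀ M, ∀ p' ≤ p, ∃ q ≤ p', ∃ x ξ, Φ q x ξ ∧ ∃ n, At2 n x ∧ M < n) : False := by
  classical
  obtain ⟨q₀, hq₀, -, T, hT, hT1, hT2⟩ := nice (cutK 0) (Z := ℕ) (by
    rw [mk_nat]
    exact kap_lt_succ 0) (fun n r => ∃ a ξ, At2 n a ∧ Φ r a ξ)
    (fun n r r' ⟨a, ξ, h1, h2⟩ hr => ⟨a, ξ, h1, hmono _ _ _ _ h2 hr⟩) p
  let S : Set Pt := {s | ∃ t ∈ T, Tch t.2 (.inl 0) s}
  have hS : #S < kap 1 := by
    have h1 : S = ⋃ t : T, {s | Tch t.1.2 (.inl 0) s} := by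
      ext s
      simp only [S, mem_ofPred_eq, mem_iUnion, Subtype.exists, exists_prop]
    rw [h1, card_iUnion_lt_iff_forall_of_isRegular (kap_reg 1) hT]
    intro t
    refine lt_of_le_of_lt ?_ (((cutK 0).low _ t.1.2.2).trans (cutK 0).cls.lt)
    refine (mk_le_mk_of_subset (t := (fun t : Cell × Bool => t.1.2.1) ''
      lo (cutK 0).J t.1.2.1) ?_).trans mk_image_le
    rintro s ⟨ε, b, hb⟩
    exact ⟨_, ⟨hb, ⟨0, le_rfl, rfl⟩⟩, rfl⟩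
  obtain ⟨q₂, hq₂, m, D, D₁, y, r, h⟩ := stepA Φ hmono hfun p hp hI 1 S
    (hS.trans (kap_lt_succ 1)) q₀ hq₀
  let D₂ : Set Pt := {d | d ∈ D₁ ∧ ∃ m' ≤ 1, At m' d}
  let D₃ : Set Pt := {d | d ∈ D₁ ∧ ∃ m', 1 < m' ∧ At m' d}
  have hD₂ : #D₂ < kap 2 := by
    by_contra hc
    exact four Φ hmono p hI h (hq₂.trans hq₀) (D₂ := D₂) (fun d hd => hd.1) (not_lt.1 hc)
      (fun d hd => hd.2)
  have hD₃ : kap 2 ≤ #D₃ := by
    by_contra hc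
    have h1 : #D₁ ≤ #D₂ + #D₃ := by
      refine le_trans (mk_le_mk_of_subset ?_) (mk_union_le D₂ D₃)
      intro d hd
      obtain ⟨m', -, hA⟩ := h.node hd
      by_cases hm' : m' ≤ 1
      · exact Or.inl ⟨hd, m', hm', hA⟩
      · exact Or.inr ⟨hd, m', not_le.1 hm', hA⟩
    exact absurd ((h.large.trans h1).trans_lt
      (add_lt_of_lt (aleph0_le_kap 2) hD₂ (not_le.1 hc))) (lt_irrefl _)
  have hch : ∀ d : D₃, ∃ m', 1 < m' ∧ At m' d.1 := fun d => d.2.2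
  choose lv hlv1 hlvA using hch
  have hnx : ∀ d : D₃, ∃ d', d' ∈ D ∧ d.1 < d' := by
    intro d
    obtain ⟨d', h1, h2⟩ := h.next d.1 d.2.1
    exact ⟨d', h1, h2⟩
  choose nx hnxD hnxlt using hnx
  have hqd : ∀ d : D₃, ∃ q : Pos, q ≤ r d.1 ∧ q ≤ r (nx d) ∧
      ∀ t ∈ q.1, t ∈ (r d.1).1 ∨ t ∈ (r (nx d)).1 := by
    intro d
    exact ⟨⟨(r d.1).1 ∪ (r (nx d)).1, (r d.1).2.union (r (nx d)).2
      (h.cpt _ (h.sub d.2.1) _ (hnxD d))⟩, subset_union_left, subset_union_right,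
      fun t ht => ht⟩
  choose qd hqd1 hqd2 hqd3 using hqd
  let f : D₃ → ℕ × (S → Bool) := fun d => (lv d, fun s => brn (qd d) (.inl (lv d)) d.1 s.1)
  have key : ∀ d e : D₃, d.1 < e.1 → f d = f e → False := by
    intro d e hde hf
    have hlve : lv e = lv d := (congrArg Prod.fst hf).symm
    have hv : ∀ s : S, brn (qd d) (.inl (lv d)) d.1 s.1 = brn (qd e) (.inl (lv d)) e.1 s.1 := by
      intro s
      have h1 := congrFun (congrArg Prod.snd hf) s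
      simp only [f] at h1
      rwa [hlve] at h1
    have hdD : d.1 ∈ D := h.sub d.2.1
    have heD : e.1 ∈ D := h.sub e.2.1
    have hmem : ∀ i : Fin 4, (![d.1, nx d, e.1, nx e] : Fin 4 → Pt) i ∈ D := by
      intro i
      fin_cases i
      · exact hdD
      · exact hnxD d
      · exact heD
      · exact hnxD e
    obtain ⟨q, hq, -⟩ := exists_union (fun i : Fin 4 => r ((![d.1, nx d, e.1, nx e] : Fin 4 → Pt) i))
      (fun i j => h.cpt _ (hmem i) _ (hmem j))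
    have hq1 : q ≤ r d.1 := hq 0
    have hq2 : q ≤ r (nx d) := hq 1
    have hq3 : q ≤ r e.1 := hq 2
    have hq4 : q ≤ r (nx e) := hq 3
    have hqqd : q ≤ qd d := fun t ht => (hqd3 d t ht).elim (fun h1 => hq1 h1) (fun h1 => hq2 h1)
    have hqqe : q ≤ qd e := fun t ht => (hqd3 e t ht).elim (fun h1 => hq3 h1) (fun h1 => hq4 h1)
    have hqq₂ : q ≤ q₂ := hq1.trans (h.le _ hdD)
    obtain ⟨ξx, hx⟩ := h.inn _ hdD
    obtain ⟨ξy, hy⟩ := h.inn _ heD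
    obtain ⟨ξz, hz⟩ := h.inn _ (hnxD e)
    have hde' : d.1 < nx e := hde.trans (hnxlt e)
    refine last Φ hmono p hI hC hq₀ hT1 hT2 (S := S) (fun t ht s hs => ⟨t, ht, hs⟩)
      (hqq₂.trans hq₂) (hmono _ _ _ _ hx hq1) (hmono _ _ _ _ hy hq3) (hmono _ _ _ _ hz hq4)
      (h.lev _ hdD) (h.lev _ heD) (h.lev _ (hnxD e)) (h.mono _ hdD _ heD hde)
      (h.mono _ hdD _ (hnxD e) hde') hde ((h.fd _ hdD _ heD hde).mono hqq₂)
      ((h.fd _ hdD _ (hnxD e) hde').mono hqq₂)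
      ((h.fd _ heD _ (hnxD e) (hnxlt e)).mono hqq₂) (m' := lv d) (hlvA d)
      (hlve ▸ hlvA e) ?_
    intro s hs hs2
    have hb1 : ∃ b, Bit (qd d) (.inl (lv d)) d.1 s b := by
      obtain ⟨b, hb⟩ := h.dec _ hdD _ (hnxD d) (hnxlt d) (lv d) (hlv1 d) (hlvA d) s hs hs2
      rcases hb with hb | hb
      · exact ⟨b, hb.mono (hqd1 d)⟩
      · exact ⟨b, hb.mono (hqd2 d)⟩
    have hb2 : ∃ b, Bit (qd e) (.inl (lv d)) e.1 s b := by
      obtain ⟨b, hb⟩ := h.dec _ heD _ (hnxD e) (hnxlt e) (lv d) (hlv1 d) (hlve ▸ hlvA e) s hs hs2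
      rcases hb with hb | hb
      · exact ⟨b, hb.mono (hqd1 e)⟩
      · exact ⟨b, hb.mono (hqd2 e)⟩
    obtain ⟨b, hb⟩ := hb1
    obtain ⟨b', hb'⟩ := hb2
    have h1 := hv ⟨s, hs⟩
    rw [brn_eq hb, brn_eq hb'] at h1
    subst h1
    exact ⟨b, hb.mono hqqd, hb'.mono hqqe⟩
  have hinj : Function.Injective f := by
    intro d e hf
    rcases lt_trichotomy d.1 e.1 with hlt | heq | hlt
    · exact (key d e hlt hf).elim
    · exact Subtype.ext heq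
    · exact (key e d hlt hf.symm).elim
  have h1 : #D₃ ≤ #(ℕ × (S → Bool)) := mk_le_of_injective hinj
  have h2 : #(ℕ × (S → Bool)) < kap 2 := by
    rw [mk_prod, Cardinal.lift_id, Cardinal.lift_id, mk_nat]
    refine mul_lt_of_lt (aleph0_le_kap 2) ((aleph0_le_kap 1).trans_lt (kap_lt_succ 1)) ?_
    have h3 : #(S → Bool) = 2 ^ #S := by
      rw [← power_def, mk_bool]
    rw [h3]
    exact Order.lt_succ_of_le (le_powerlt 2 hS)
  exact absurd ((hD₃.trans h1).trans_lt h2) (lt_irrefl _)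

end Q2c

/-- **Every large set contains a quadruple of colour 1.** -/
theorem q2core (Φ : Pos → Pt → Pt → Prop)
    (hmono : ∀ r r' x ξ, Φ r x ξ → r' ≤ r → Φ r' x ξ)
    (hfun : ∀ r x ξ ξ', Φ r x ξ → Φ r x ξ' → ξ = ξ')
    (p : Pos) (hp : ∀ ξ, od ξ < kapω.ord → ∀ q ≤ p, ∃ r ≤ q, ∃ x, Φ r x ξ) :
    ∃ q ≤ p, ∃ a b c d ξa ξb ξc ξd, Φ q a ξa ∧ Φ q b ξb ∧ Φ q c ξc ∧ Φ q d ξd ∧
      Col4 q a b c d := by
  by_contra hcon
  have hI : ∀ q ≤ p, ∀ a b c d ξa ξb ξc ξd, Φ q a ξa → Φ q b ξb → Φ q c ξc → Φ q d ξd →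
      ¬ Col4 q a b c d := fun q hq a b c d ξa ξb ξc ξd h1 h2 h3 h4 h5 =>
    hcon ⟨q, hq, a, b, c, d, ξa, ξb, ξc, ξd, h1, h2, h3, h4, h5⟩
  by_cases hC : ∃ M, ∃ p' ≤ p, ∀ q ≤ p', ∀ x ξ, Φ q x ξ → ∀ n, At2 n x → n ≤ M
  · obtain ⟨M, p', hp', hlow⟩ := hC
    exact Q2c.case1 Φ hmono hfun p hp hI M p' hp' hlow
  · push Not at hC
    refine Q2c.case2 Φ hmono hfun p hp hI ?_
    intro M p' hp'
    obtain ⟨q, hq, x, ξ, h1, n, h2, h3⟩ := hC M p' hp'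
    exact ⟨q, hq, x, ξ, h1, n, h2, h3⟩

end Pool.Agent.Helper96.Fc
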