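import Pool.Agent.Helper27.Fc96.Basic

/-!
# A long sequence of conditions with a comb of splitting nodes
-/

open Cardinal Ordinal Set

namespace Pool.Agent.Helper96.Fc.Q2c

open Pool.Agent.Helper96.Split

theorem kap_lt_rho_inr (n m : ℕ) : kap n < rho (.inr m) := kap_lt_lam n m

/-- few points represent all values below `κ_{M+1}` -/
theorem stepA1 (Φ : Pos → Pt → Pt → Prop)
    (hmono : ∀ r r' x ξ, Φ r x ξ → r' ≤ r → Φ r' x ξ)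
    (p : Pos) (hp : ∀ ξ, od ξ < kapω.ord → ∀ q ≤ p, ∃ r ≤ q, ∃ x, Φ r x ξ) (M : ℕ) :
    ∃ q₁ ≤ p, ∃ X : Set Pt, #X < kap (M + 2) ∧
      ∀ q ≤ q₁, ∀ ξ, od ξ < (kap (M + 1)).ord → ∃ r ≤ q, ∃ x ∈ X, Φ r x ξ := by
  have hZ : #{ξ : Pt // od ξ < (kap (M + 1)).ord} < (cutK (M + 1)).θ := by
    rw [mk_od_lt (kap_le_muω _)]
    exact kap_lt_succ (M + 1)
  obtain ⟨q₁, hq₁, -, T, hT, hT1, hT2⟩ := nice (cutK (M + 1)) hZ
    (fun z r => ∃ x, Φ r x z.1)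
    (fun z r r' ⟨x, hx⟩ hr => ⟨x, hmono r r' x z.1 hx hr⟩) p
  have hch : ∀ t : T, ∃ s ≤ q₁, ∃ x, Φ s x t.1.1.1 ∧ s.1 = t.1.2.1 ∪ q₁.1 := by
    intro t
    obtain ⟨-, s, hs, ⟨x, hx⟩, hs2⟩ := hT1 t.1 t.2
    exact ⟨s, hs, x, hx, hs2⟩
  choose s hs x hx hs2 using hch
  refine ⟨q₁, hq₁, Set.range x, mk_range_le.trans_lt hT, ?_⟩
  intro q hq ξ hξ
  obtain ⟨r, hr, x', hx'⟩ := hp ξ (hξ.trans_le (ord_le_ord.2 (kap_le_kapω _))) q (hq.trans hq₁)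
  obtain ⟨l, hl, hl2⟩ := hT2 ⟨ξ, hξ⟩ r (hr.trans hq) ⟨x', hx'⟩
  refine ⟨⟨l.1 ∪ r.1, l.2.union r.2 hl2⟩, ?_, x ⟨_, hl⟩, mem_range_self _, ?_⟩
  · refine le_trans ?_ hr
    exact subset_union_right
  · refine hmono (s ⟨_, hl⟩) _ _ _ (hx ⟨_, hl⟩) ?_
    intro t ht
    rw [hs2] at ht
    rcases ht with ht | ht
    · exact Or.inl ht
    · exact Or.inr (hr.trans hq ht)

theorem stepA2 (q₁ : Pos) (X : Set Pt) (n : ℕ) (hX : #X < kap n) :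
    ∃ q₂ ≤ q₁, ∀ m, ∀ x ∈ X, ∀ y ∈ X, At2 m x → At2 m y → x ≠ y → ∃ δ, Fd q₂ (.inr m) x y δ := by
  let Y : Lv → Set Pt := fun i => match i with
    | .inl _ => ∅
    | .inr m => {x | x ∈ X ∧ At2 m x}
  obtain ⟨q₂, hq₂, h1, -⟩ := ext_all q₁ Y (by
    rintro (m | m)
    · change #(∅ : Set Pt) < _
      rw [mk_eq_zero]
      exact rho_pos _
    · refine lt_of_le_of_lt (mk_le_mk_of_subset (t := X) ?_) (hX.trans (kap_lt_lam n m))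
      intro x hx
      exact hx.1) (by
    rintro (m | m) x hx
    · exact hx.elim
    · exact hx.2.1)
  refine ⟨q₂, hq₂, ?_⟩
  intro m x hx y hy hxm hym hne
  exact h1 (.inr m) x ⟨hx, hxm⟩ y ⟨hy, hym⟩ hne

theorem mk_Iio_lt_cut (M : ℕ) (η : (cutK M).θ.ord.ToType) : #(Iio η) < kap (M + 1) :=
  mk_Iio_lt' η

theorem stepA3 (Φ : Pos → Pt → Pt → Prop)
    (hmono : ∀ r r' x ξ, Φ r x ξ → r' ≤ r → Φ r' x ξ) (M : ℕ) (S : Set Pt)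
    (hS : #S < kap (M + 1)) (q₂ : Pos) (X : Set Pt)
    (hΦ : ∀ q ≤ q₂, ∀ ξ, od ξ < (kap (M + 1)).ord → ∃ r ≤ q, ∃ x ∈ X, Φ r x ξ) :
    ∃ (b r : (cutK M).θ.ord.ToType → Pos) (x : (cutK M).θ.ord.ToType → Pt),
      Desc (cutK M) q₂ (fun η _ r' x' => Φ r' x' (toPt (M + 1) η) ∧ x' ∈ X ∧
        ∀ ζ < η, ∀ k m' δ, Fd q₂ (.inr k) (x ζ) x' δ → M < m' → At m' δ → ∀ s ∈ S,
          od s < (kap m').ord → ∃ b, Bit r' (.inl m') δ s b) b r x := by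
  have hθ0 := aleph0_le_kap (M + 1)
  refine exists_desc_hist (cutK M) q₂ (D := Pt) (fun η g _ r' x' =>
    Φ r' x' (toPt (M + 1) η) ∧ x' ∈ X ∧
        ∀ ζ (hζ : ζ < η), ∀ k m' δ, Fd q₂ (.inr k) (g ζ hζ).2 x' δ → M < m' → At m' δ → ∀ s ∈ S,
          od s < (kap m').ord → ∃ b, Bit r' (.inl m') δ s b) ?_
  intro η g b hb _
  obtain ⟨r₀, hr₀, x', hx', hΦ'⟩ := hΦ b hb (toPt (M + 1) η) (od_toPt_lt η)
  let W : Set Cell := {c | ∃ ζ, ∃ hζ : ζ < η, ∃ k m' δ s, Fd q₂ (.inr k) (g ζ hζ).2 x' δ ∧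
    M < m' ∧ At m' δ ∧ s ∈ S ∧ od s < (kap m').ord ∧ c = (Sum.inl m', δ, s)}
  obtain ⟨r, hr, hW⟩ := exists_decide r₀ W (by
    rintro c ⟨ζ, hζ, k, m', δ, s, -, -, hAt, -, hs, rfl⟩
    exact ⟨hAt.1, hs⟩) (by
    intro i
    by_cases hi : ∃ m', M < m' ∧ i = Sum.inl m'
    · obtain ⟨m', hm', rfl⟩ := hi
      have hle : kap (M + 1) ≤ rho (.inl m') := kap_strictMono.monotone hm'
      refine lt_of_lt_of_le ?_ hle
      have hprod : #(Iio η × ℕ × S) < kap (M + 1) := by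
        rw [mk_prod, mk_prod, Cardinal.lift_id, Cardinal.lift_id, Cardinal.lift_id,
          Cardinal.lift_id, mk_nat]
        refine mul_lt_of_lt hθ0 (mk_Iio_lt_cut M η) (mul_lt_of_lt hθ0 ?_ hS)
        exact (aleph0_le_kap M).trans_lt (kap_lt_succ M)
      have key : ∀ c : {c : Cell | c ∈ W ∧ c.1 = Sum.inl m'}, ∃ z : Iio η × ℕ × S,
          Fd q₂ (.inr z.2.1) (g z.1.1 z.1.2).2 x' c.1.2.1 ∧ c.1.2.2 = z.2.2.1 := by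
        rintro ⟨c, ⟨ζ, hζ, k, m'', δ, s, h1, -, -, h2, -, rfl⟩, -⟩
        exact ⟨⟨⟨ζ, hζ⟩, k, ⟨s, h2⟩⟩, h1, rfl⟩
      choose z hz1 hz2 using key
      refine (mk_le_of_injective (f := z) ?_).trans_lt hprod
      intro c c' hcc
      have h1 := hz1 c
      have h2 := hz1 c'
      rw [hcc] at h1
      have h3 := h1.unique h2
      have h4 : c.1.2.2 = c'.1.2.2 := by rw [hz2, hz2, hcc]
      have h5 : c.1.1 = c'.1.1 := c.2.2.trans c'.2.2.symm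
      exact Subtype.ext (Prod.ext h5 (Prod.ext h3 h4))
    · have : {c : Cell | c ∈ W ∧ c.1 = i} = ∅ := by
        ext c
        simp only [mem_ofPred_eq, mem_empty_iff_false, iff_false]
        rintro ⟨⟨ζ, hζ, k, m', δ, s, -, hm, -, -, -, rfl⟩, rfl⟩
        exact hi ⟨m', hm, rfl⟩
      rw [this, mk_eq_zero]
      exact rho_pos i)
  refine ⟨r, hr.trans hr₀, x', hmono _ _ _ _ hΦ' hr, hx', ?_⟩
  intro ζ hζ k m' δ hfd hM hAt s hs hs2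
  exact hW (Sum.inl m', δ, s) ⟨ζ, hζ, k, m', δ, s, hfd, hM, hAt, hs, hs2, rfl⟩

end Pool.Agent.Helper96.Fc.Q2c
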