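import Pool.Agent.Helper27.Fc96.StepA

/-!
# The comb of splitting nodes
-/

open Cardinal Ordinal Set

namespace Pool.Agent.Helper96.Fc.Q2c

open Pool.Agent.Helper96.Split

/-- the result of thinning out -/
structure Comb (Φ : Pos → Pt → Pt → Prop) (M : ℕ) (S : Set Pt) (q₂ : Pos) (m : ℕ)
    (D D₁ : Set Pt) (y : Pt → Pt) (r : Pt → Pos) : Prop where
  sub : D₁ ⊆ D
  large : kap (M + 1) ≤ #D₁
  le : ∀ d ∈ D, r d ≤ q₂
  inn : ∀ d ∈ D, ∃ ξ, Φ (r d) (y d) ξ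
  lev : ∀ d ∈ D, At2 m (y d)
  fd : ∀ d ∈ D, ∀ d' ∈ D, d < d' → Fd q₂ (.inr m) (y d) (y d') d
  mono : ∀ d ∈ D, ∀ d' ∈ D, d < d' → y d < y d'
  dec : ∀ d ∈ D, ∀ d' ∈ D, d < d' → ∀ m', M < m' → At m' d → ∀ s ∈ S, od s < (kap m').ord →
    ∃ b, Bit (r d) (.inl m') d s b ∨ Bit (r d') (.inl m') d s b
  cpt : ∀ d ∈ D, ∀ d' ∈ D, Cpt (r d).1 (r d').1
  next : ∀ d ∈ D₁, ∃ d' ∈ D, d < d'

/-- the branch of a column -/
noncomputable def brn (q : Pos) (i : Lv) (z : Pt) : Pt → Bool :=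
  fun ε => @decide (Bit q i z ε true) (Classical.propDecidable _)

theorem brn_eq {q : Pos} {i : Lv} {z ε : Pt} {b : Bool} (h : Bit q i z ε b) :
    brn q i z ε = b := by
  classical
  unfold brn
  cases b
  · apply decide_eq_false
    intro h'
    exact absurd (h.unique h') (by simp)
  · exact decide_eq_true h

theorem fd_brn {q : Pos} {i : Lv} {x y δ : Pt} (h : Fd q i x y δ) :
    FD δ (brn q i x) (brn q i y) := by
  obtain ⟨b, h1, h2, h3⟩ := h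
  refine ⟨?_, ?_⟩
  · intro u hu
    obtain ⟨b', h4, h5⟩ := h1 u hu
    rw [brn_eq h4, brn_eq h5]
  · rw [brn_eq h2, brn_eq h3]
    simp

theorem agr_brn {q : Pos} {i : Lv} {x y δ t : Pt} (h : Fd q i x y δ)
    (ht : ∀ u ≤ t, brn q i x u = brn q i y u) :
    ∀ u ≤ t, ∃ β, Bit q i x u β ∧ Bit q i y u β := by
  have h1 := (fd_brn h).2
  have h2 : t < δ := by
    by_contra hc
    exact h1 (ht δ (not_lt.1 hc))
  obtain ⟨b, h3, -⟩ := h
  intro u hu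
  exact h3 u (hu.trans_lt h2)

theorem stepA (Φ : Pos → Pt → Pt → Prop)
    (hmono : ∀ r r' x ξ, Φ r x ξ → r' ≤ r → Φ r' x ξ)
    (hfun : ∀ r x ξ ξ', Φ r x ξ → Φ r x ξ' → ξ = ξ')
    (p : Pos) (hp : ∀ ξ, od ξ < kapω.ord → ∀ q ≤ p, ∃ r ≤ q, ∃ x, Φ r x ξ)
    (hI : ∀ q ≤ p, ∀ a b c d ξa ξb ξc ξd, Φ q a ξa → Φ q b ξb → Φ q c ξc → Φ q d ξd →
      ¬ Col4 q a b c d)
    (M : ℕ) (S : Set Pt) (hS : #S < kap (M + 1)) (p' : Pos) (hp' : p' ≤ p) :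
    ∃ q₂ ≤ p', ∃ m D D₁ y r, Comb Φ M S q₂ m D D₁ y r := by
  classical
  obtain ⟨q₁, hq₁, X, hX, hΦ⟩ := stepA1 Φ hmono p'
    (fun ξ hξ q hq => hp ξ hξ q (hq.trans hp')) M
  obtain ⟨q₂, hq₂, hfd⟩ := stepA2 q₁ X (M + 2) hX
  obtain ⟨b, r, x, hD⟩ := stepA3 Φ hmono M S hS q₂ X (fun q hq => hΦ q (hq.trans hq₂))
  choose lv hlv using fun ξ => exists_At2 (x ξ)
  have hℕ : #ℕ < (cutK M).θ := by
    rw [mk_nat]
    exact (aleph0_le_kap M).trans_lt (kap_lt_succ M)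
  obtain ⟨e, he, ⟨m, hm⟩, hcp⟩ := amalg (cutK M) r (toPt (M + 1)) (toPt_inj _) hℕ lv
  have hcpt : ∀ j k, Cpt (r (e j)).1 (r (e k)).1 := by
    intro j k
    by_cases h : j = k
    · subst h
      exact Cpt.refl _
    · exact hD.cpt (hcp j k h).1
  have hlev : ∀ k, At2 m (x (e k)) := fun k => hm k ▸ hlv (e k)
  have hinj : ∀ j k, x (e j) = x (e k) → j = k := by
    intro j k hjk
    obtain ⟨q, hqj, hqk⟩ := Pos.compat_iff.2 (hcpt j k)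
    have h1 := hmono _ _ _ _ (hD.psi (e j)).1 hqj
    have h2 := hmono _ _ _ _ (hD.psi (e k)).1 hqk
    rw [hjk] at h1
    have h3 := hfun _ _ _ _ h1 h2
    exact he.injective (toPt_inj _ h3)
  have hFd : ∀ j k, j ≠ k → ∃ δ, Fd q₂ (.inr m) (x (e j)) (x (e k)) δ := by
    intro j k hjk
    exact hfd m _ (hD.psi (e j)).2.1 _ (hD.psi (e k)).2.1 (hlev j) (hlev k)
      (fun h => hjk (hinj j k h))
  have hFinj : ∀ j k, brn q₂ (.inr m) (x (e j)) = brn q₂ (.inr m) (x (e k)) → j = k := by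
    intro j k h
    by_contra hjk
    obtain ⟨δ, hδ⟩ := hFd j k hjk
    exact (fd_brn hδ).ne h
  obtain ⟨R, hR, hRlt⟩ := exists_order (Set.range fun k => x (e k)) (brn q₂ (.inr m)) (by
    rintro _ ⟨j, rfl⟩ _ ⟨k, rfl⟩ h
    rw [hFinj j k h])
  have hRlt' : ∀ j k, R (brn q₂ (.inr m) (x (e j))) (brn q₂ (.inr m) (x (e k))) ↔
      x (e j) < x (e k) := fun j k => hRlt _ ⟨j, rfl⟩ _ ⟨k, rfl⟩
  have hcard : kap (M + 1) ≤ #(Set.range fun k => brn q₂ (.inr m) (x (e k))) := by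
    rw [mk_range_eq _ (fun j k h => hFinj j k h)]
    exact (mk_ord_toType (kap (M + 1))).symm.le
  have hcr : NoCross R (Set.range fun k => brn q₂ (.inr m) (x (e k))) := by
    rintro _ ⟨ja, rfl⟩ _ ⟨jb, rfl⟩ _ ⟨jc, rfl⟩ _ ⟨jd, rfl⟩ t hac hab hcd ⟨h1, h2, h3⟩
    simp only [hRlt'] at h1 h2 h3
    have hjac : ja ≠ jc := by rintro rfl; exact lt_irrefl _ h1
    have hjab : ja ≠ jb := by rintro rfl; exact lt_asymm h1 h2
    have hjcd : jc ≠ jd := by rintro rfl; exact lt_asymm h2 h3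
    obtain ⟨q, hq, -⟩ := exists_union (fun i : Fin 4 => r (e (![ja, jb, jc, jd] i)))
      (fun i j => hcpt _ _)
    have hqa : q ≤ r (e ja) := hq 0
    have hqb : q ≤ r (e jb) := hq 1
    have hqc : q ≤ r (e jc) := hq 2
    have hqd : q ≤ r (e jd) := hq 3
    have hqq : q ≤ q₂ := hqa.trans (hD.rp _)
    refine hI q (hqq.trans (hq₂.trans (hq₁.trans hp'))) (x (e ja)) (x (e jb)) (x (e jc))
      (x (e jd)) _ _ _ _ (hmono _ _ _ _ (hD.psi (e ja)).1 hqa)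
      (hmono _ _ _ _ (hD.psi (e jb)).1 hqb) (hmono _ _ _ _ (hD.psi (e jc)).1 hqc)
      (hmono _ _ _ _ (hD.psi (e jd)).1 hqd) ?_
    refine Or.inr (Or.inl ⟨m, hlev ja, hlev jb, hlev jc, hlev jd, h1, h2, h3, t, ?_, ?_, ?_⟩)
    · obtain ⟨δ, hδ⟩ := hFd ja jc hjac
      have h4 := (fd_brn hδ).unique hac
      subst h4
      exact hδ.mono hqq
    · obtain ⟨δ, hδ⟩ := hFd ja jb hjab
      intro u hu
      obtain ⟨β, h5, h6⟩ := agr_brn hδ hab u hu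
      exact ⟨β, h5.mono hqq, h6.mono hqq⟩
    · obtain ⟨δ, hδ⟩ := hFd jc jd hjcd
      intro u hu
      obtain ⟨β, h5, h6⟩ := agr_brn hδ hcd u hu
      exact ⟨β, h5.mono hqq, h6.mono hqq⟩
  obtain ⟨D, D₁, y, h1, h2, h3, h4, h5⟩ := comb (R := R) (kap_reg (M + 1)) hcard hcr
  have hne : Nonempty (cutK M).θ.ord.ToType := by
    rw [nonempty_toType_iff]
    exact ((cutK M).cls.rθ.ord_pos).ne'
  have hk : ∀ d, ∃ k, d ∈ D → brn q₂ (.inr m) (x (e k)) = y d := by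
    intro d
    by_cases hd : d ∈ D
    · obtain ⟨k, hk⟩ := h3 d hd
      exact ⟨k, fun _ => hk⟩
    · exact ⟨hne.some, fun h => (hd h).elim⟩
  choose k hk using hk
  have hkne : ∀ d ∈ D, ∀ d' ∈ D, d < d' → k d ≠ k d' := by
    intro d hd d' hd' hlt hkk
    have h6 := (h4 d hd d' hd' hlt).1.ne
    rw [← hk d hd, ← hk d' hd', hkk] at h6
    exact h6 rfl
  have hfd2 : ∀ d ∈ D, ∀ d' ∈ D, d < d' →
      Fd q₂ (.inr m) (x (e (k d))) (x (e (k d'))) d := by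
    intro d hd d' hd' hlt
    obtain ⟨δ, hδ⟩ := hFd (k d) (k d') (hkne d hd d' hd' hlt)
    have h6 := (h4 d hd d' hd' hlt).1
    rw [← hk d hd, ← hk d' hd'] at h6
    have h7 := (fd_brn hδ).unique h6
    subst h7
    exact hδ
  refine ⟨q₂, hq₂.trans hq₁, m, D, D₁, fun d => x (e (k d)), fun d => r (e (k d)),
    ⟨h1, h2, fun d _ => hD.rp _, fun d _ => ⟨_, (hD.psi _).1⟩, fun d _ => hlev _, hfd2, ?_, ?_,
      fun d _ d' _ => hcpt _ _, h5⟩⟩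
  · intro d hd d' hd' hlt
    have h6 := (h4 d hd d' hd' hlt).2
    rw [← hk d hd, ← hk d' hd', hRlt'] at h6
    exact h6
  · intro d hd d' hd' hlt m' hm' hAt s hs hs2
    rcases lt_or_gt_of_ne (hkne d hd d' hd' hlt) with h | h
    · obtain ⟨β, hβ⟩ := (hD.psi (e (k d'))).2.2 (e (k d)) (he h) m m' d (hfd2 d hd d' hd' hlt) hm'
        hAt s hs hs2
      exact ⟨β, Or.inr hβ⟩
    · obtain ⟨β, hβ⟩ := (hD.psi (e (k d))).2.2 (e (k d')) (he h) m m' d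
        (hfd2 d hd d' hd' hlt).symm hm' hAt s hs hs2
      exact ⟨β, Or.inl hβ⟩

end Pool.Agent.Helper96.Fc.Q2c
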